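import Mathlib

/-! A random sparse graph with many unique neighbours for sets of one linear size. -/

set_option autoImplicit false

open Finset

namespace Pool.Agent.H193Z.Cube

/-- rows with exactly one entry in `S'`, that entry lying in `S` -/
def Good {α : Type} [DecidableEq α] {t : ℕ} (S S' : Finset α) (f : Fin t → α) : Prop :=
  ∃ c, f c ∈ S ∧ ∀ c', c' ≠ c → f c' ∉ S'

instance {α : Type} [DecidableEq α] {t : ℕ} (S S' : Finset α) :
    DecidablePred (Good (t := t) S S') := fun f => by unfold Good; infer_instance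

lemma card_good {α : Type} [Fintype α] [DecidableEq α] (t : ℕ) (S S' : Finset α) (h : S ⊆ S') :
    (t + 1) * (S.card * (Fintype.card α - S'.card) ^ t) ≤
      (univ.filter (Good (t := t + 1) S S')).card := by
  classical
  let G : Fin (t + 1) → Finset (Fin (t + 1) → α) := fun c =>
    Fintype.piFinset fun c' => if c' = c then S else S'ᶜ
  have hG : ∀ c, (G c).card = S.card * (Fintype.card α - S'.card) ^ t := by
    intro c
    simp only [G, Fintype.card_piFinset]
    rw [← Finset.mul_prod_erase univ _ (mem_univ c)]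
    simp only [if_true]
    congr 1
    rw [Finset.prod_congr rfl (g := fun _ => Fintype.card α - S'.card)]
    · simp
    · intro x hx
      rw [if_neg (Finset.ne_of_mem_erase hx), Finset.card_compl]
  have hdisj : ((univ : Finset (Fin (t + 1))) : Set (Fin (t + 1))).PairwiseDisjoint G := by
    intro c _ d _ hcd
    rw [Function.onFun, Finset.disjoint_left]
    intro f hf hf'
    simp only [G, Fintype.mem_piFinset] at hf hf'
    have h1 := hf c
    have h2 := hf' c
    rw [if_pos rfl] at h1
    rw [if_neg hcd, Finset.mem_compl] at h2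
    exact h2 (h h1)
  have hsub : univ.biUnion G ⊆ univ.filter (Good (t := t + 1) S S') := by
    intro f hf
    simp only [mem_biUnion, mem_univ, true_and, G, Fintype.mem_piFinset] at hf
    obtain ⟨c, hc⟩ := hf
    simp only [mem_filter, mem_univ, true_and]
    refine ⟨c, by simpa using hc c, fun c' hc' => ?_⟩
    have := hc c'
    rwa [if_neg hc', Finset.mem_compl] at this
  have := Finset.card_le_card hsub
  rw [Finset.card_biUnion hdisj] at this
  simpa [hG] using this

lemma card_good_real {α : Type} [Fintype α] [DecidableEq α] (t H F : ℕ) (hH : 0 < H) (hF : 0 < F)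
    (hα : Fintype.card α = 2 * (t + 1) * (H * F)) (S S' : Finset α) (h : S ⊆ S')
    (h1 : S'.card ≤ H * F) (h2 : F ≤ S.card) :
    (Fintype.card α : ℝ) ^ (t + 1) / (4 * H) ≤ (univ.filter (Good (t := t + 1) S S')).card := by
  have h0 := card_good t S S' h
  have hle : S'.card ≤ Fintype.card α := Finset.card_le_univ _
  have h0' : ((t : ℝ) + 1) * (S.card * ((Fintype.card α : ℝ) - S'.card) ^ t) ≤
      (univ.filter (Good (t := t + 1) S S')).card := by
    have := (Nat.cast_le (α := ℝ)).2 h0
    push_cast [Nat.cast_sub hle] at this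
    exact this
  refine le_trans ?_ h0'
  set r : ℝ := (Fintype.card α : ℝ) with hr
  have hrv : r = 2 * (t + 1) * (H * F) := by rw [hr, hα]; push_cast; ring
  have hH' : (0 : ℝ) < H := by exact_mod_cast hH
  have hF' : (0 : ℝ) < F := by exact_mod_cast hF
  have ht : (0 : ℝ) ≤ t := Nat.cast_nonneg t
  have hrpos : 0 < r := by rw [hrv]; positivity
  have h1' : (S'.card : ℝ) ≤ H * F := by exact_mod_cast h1
  have h2' : (F : ℝ) ≤ S.card := by exact_mod_cast h2
  have hx : r * (1 + (-(1 / (2 * (t + 1))))) ≤ r - S'.card := by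
    have : r * (1 / (2 * ((t : ℝ) + 1))) = H * F := by rw [hrv]; field_simp
    nlinarith
  have hb : (1 : ℝ) / 2 ≤ (1 + (-(1 / (2 * ((t : ℝ) + 1))))) ^ t := by
    have h3 : (-2 : ℝ) ≤ -(1 / (2 * ((t : ℝ) + 1))) := by
      have : 1 / (2 * ((t : ℝ) + 1)) ≤ 1 := by
        rw [div_le_one (by positivity)]; linarith
      linarith
    refine le_trans ?_ (one_add_mul_le_pow h3 t)
    have : (t : ℝ) * (1 / (2 * (t + 1))) ≤ 1 / 2 := by
      rw [mul_one_div, div_le_div_iff₀ (by positivity) (by positivity)]; linarith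
    linarith
  have hnn : (0 : ℝ) ≤ 1 + (-(1 / (2 * ((t : ℝ) + 1)))) := by
    have : 1 / (2 * ((t : ℝ) + 1)) ≤ 1 := by
      rw [div_le_one (by positivity)]; linarith
    linarith
  have hp : r ^ t * (1 / 2) ≤ (r - S'.card) ^ t := by
    calc r ^ t * (1 / 2) ≤ r ^ t * (1 + (-(1 / (2 * ((t : ℝ) + 1))))) ^ t := by gcongr
      _ = (r * (1 + (-(1 / (2 * ((t : ℝ) + 1)))))) ^ t := by rw [mul_pow]
      _ ≤ (r - S'.card) ^ t := by gcongr
  calc r ^ (t + 1) / (4 * H) = (t + 1) * (F * (r ^ t * (1 / 2))) := by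
        rw [pow_succ]; nth_rewrite 2 [hrv]; field_simp; ring
    _ ≤ (t + 1) * (S.card * (r - S'.card) ^ t) := by gcongr

lemma card_small_sets {α : Type} [Fintype α] [DecidableEq α] (E : ℕ) (x : ℝ) (hx : 0 < x)
    (hx1 : x ≤ 1) :
    (((univ : Finset (Finset α)).filter fun S => S.card ≤ E).card : ℝ) * x ^ E ≤
      (1 + x) ^ Fintype.card α := by
  have h1 : (1 + x) ^ Fintype.card α = ∑ S : Finset α, x ^ S.card := by
    have := Finset.prod_one_add (f := fun _ : α => x) (univ : Finset α)
    simp only [prod_const, card_univ, powerset_univ] at this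
    exact this
  rw [h1]
  calc (((univ : Finset (Finset α)).filter fun S => S.card ≤ E).card : ℝ) * x ^ E
      = ∑ S ∈ (univ : Finset (Finset α)).filter fun S => S.card ≤ E, x ^ E := by
        simp
    _ ≤ ∑ S ∈ (univ : Finset (Finset α)).filter fun S => S.card ≤ E, x ^ S.card := by
        refine Finset.sum_le_sum fun S hS => ?_
        exact pow_le_pow_of_le_one hx.le hx1 (mem_filter.1 hS).2
    _ ≤ ∑ S : Finset α, x ^ S.card :=
        Finset.sum_le_sum_of_subset_of_nonneg (filter_subset _ _) fun _ _ _ => by positivity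

lemma sum_weight {α β : Type} [Fintype α] [DecidableEq α] [Fintype β] (P : β → Prop)
    [DecidablePred P] :
    ∑ N : α → β, ((1 : ℝ) / 2) ^ (univ.filter fun j => P (N j)).card =
      ((Fintype.card β : ℝ) - (univ.filter P).card / 2) ^ Fintype.card α := by
  classical
  have h1 : ∀ N : α → β, ((1 : ℝ) / 2) ^ (univ.filter fun j => P (N j)).card =
      ∏ j, if P (N j) then (1 : ℝ) / 2 else 1 := by
    intro N
    rw [Finset.prod_ite]; simp
  simp_rw [h1]
  have h2 := Finset.prod_univ_sum (fun _ : α => (univ : Finset β))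
    (fun _ b => if P b then (1 : ℝ) / 2 else 1)
  rw [Fintype.piFinset_univ] at h2
  rw [← h2, Finset.prod_const, card_univ]
  congr 1
  rw [Finset.sum_ite]
  simp only [sum_const, nsmul_eq_mul, mul_one]
  have := Finset.card_filter_add_card_filter_not (s := (univ : Finset β)) P
  rw [card_univ] at this
  have h3 : ((univ.filter P).card : ℝ) + (univ.filter fun b => ¬ P b).card = Fintype.card β := by
    exact_mod_cast this
  linarith

theorem exists_graph {α : Type} [Fintype α] [DecidableEq α] (t H F : ℕ) (hH : 0 < H) (hF : 0 < F)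
    (hα : Fintype.card α = 2 * (t + 1) * (H * F))
    (hnum : 8 * ((t : ℝ) + 1) * Real.exp (1 - (t + 1) / (4 * H)) < 1) :
    ∃ N : α → Fin (t + 1) → α, ∀ S S' : Finset α, S ⊆ S' → S'.card ≤ H * F → F ≤ S.card →
      H * F < (univ.filter fun j => Good S S' (N j)).card := by
  classical
  by_contra hcon
  push Not at hcon
  set E := H * F with hE
  have hEpos : 0 < E := Nat.mul_pos hH hF
  set r := Fintype.card α with hr
  let Sm : Finset (Finset α) := univ.filter fun S => S.card ≤ E
  let Adm : Finset (Σ _ : Finset α, Finset α) :=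
    Sm.sigma fun S' => S'.powerset.filter fun S => F ≤ S.card
  have hH' : (0 : ℝ) < H := by exact_mod_cast hH
  have hrv : (r : ℝ) = 2 * (t + 1) * E := by rw [hα]; push_cast; ring
  have hE' : (0 : ℝ) < E := by exact_mod_cast hEpos
  have hrpos : (0 : ℝ) < r := by rw [hrv]; positivity
  set M : ℝ := (r : ℝ) ^ (t + 1) with hM
  have hMpos : 0 < M := by positivity
  have hcardβ : (Fintype.card (Fin (t + 1) → α) : ℝ) = M := by simp [hM, hr]
  -- each graph has a bad pair
  have key : ∀ N : α → Fin (t + 1) → α, (1 : ℝ) ≤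
      ∑ p ∈ Adm, 2 ^ E * ((1 : ℝ) / 2) ^ (univ.filter fun j => Good p.2 p.1 (N j)).card := by
    intro N
    obtain ⟨S, S', h1, h2, h3, h4⟩ := hcon N
    have hmem : (⟨S', S⟩ : Σ _ : Finset α, Finset α) ∈ Adm := by
      simp [Adm, Sm, h1, h2, h3]
    refine le_trans ?_ (Finset.single_le_sum (f := fun p : Σ _ : Finset α, Finset α =>
      2 ^ E * ((1 : ℝ) / 2) ^ (univ.filter fun j => Good p.2 p.1 (N j)).card)
      (fun _ _ => by positivity) hmem)
    have : ((1 : ℝ) / 2) ^ E ≤ ((1 : ℝ) / 2) ^ (univ.filter fun j => Good S S' (N j)).card :=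
      pow_le_pow_of_le_one (by norm_num) (by norm_num) h4
    calc (1 : ℝ) = 2 ^ E * (1 / 2) ^ E := by rw [← mul_pow]; norm_num
      _ ≤ _ := by gcongr
  have hsum : M ^ r ≤ Adm.card * (2 ^ E * (M * (1 - 1 / (8 * H))) ^ r) := by
    calc M ^ r = ∑ _N : α → Fin (t + 1) → α, (1 : ℝ) := by
          simp [hM, hr]
      _ ≤ ∑ N : α → Fin (t + 1) → α, ∑ p ∈ Adm,
            2 ^ E * ((1 : ℝ) / 2) ^ (univ.filter fun j => Good p.2 p.1 (N j)).card :=
          Finset.sum_le_sum fun N _ => key N
      _ = ∑ p ∈ Adm, 2 ^ E * ∑ N : α → Fin (t + 1) → α,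
            ((1 : ℝ) / 2) ^ (univ.filter fun j => Good p.2 p.1 (N j)).card := by
          rw [Finset.sum_comm]; simp_rw [Finset.mul_sum]
      _ ≤ ∑ _p ∈ Adm, 2 ^ E * (M * (1 - 1 / (8 * H))) ^ r := by
          refine Finset.sum_le_sum fun p hp => ?_
          simp only [Adm, Sm, mem_sigma, mem_filter, mem_univ, true_and, mem_powerset] at hp
          rw [sum_weight, hcardβ]
          have hg := card_good_real t H F hH hF hα p.2 p.1 hp.2.1 hp.1 hp.2.2
          have hg2 : ((univ.filter (Good (t := t + 1) p.2 p.1)).card : ℝ) ≤ M := by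
            rw [← hcardβ]; exact_mod_cast Finset.card_le_univ _
          have hg3 : M - ((univ.filter (Good (t := t + 1) p.2 p.1)).card : ℝ) / 2 ≤
              M * (1 - 1 / (8 * H)) := by
            have : M * (1 - 1 / (8 * H)) = M - M / (4 * H) / 2 := by field_simp; ring
            rw [this]; linarith
          have hg4 : 0 ≤ M - ((univ.filter (Good (t := t + 1) p.2 p.1)).card : ℝ) / 2 := by
            linarith
          gcongr
      _ = _ := by simp
  have hAdm : (Adm.card : ℝ) ≤ Sm.card * 2 ^ E := by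
    have : Adm.card ≤ Sm.card * 2 ^ E := by
      simp only [Adm, card_sigma]
      calc ∑ S' ∈ Sm, (S'.powerset.filter fun S => F ≤ S.card).card ≤ ∑ _S' ∈ Sm, 2 ^ E := by
            refine Finset.sum_le_sum fun S' hS' => ?_
            refine (card_filter_le _ _).trans ?_
            rw [card_powerset]
            exact Nat.pow_le_pow_right (by norm_num) (mem_filter.1 hS').2
        _ = _ := by simp
    exact_mod_cast this
  have ht : (0 : ℝ) ≤ t := Nat.cast_nonneg t
  have hSm : (Sm.card : ℝ) ≤ (2 * (t + 1)) ^ E * Real.exp E := by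
    have h1 := card_small_sets (α := α) E (1 / (2 * ((t : ℝ) + 1))) (by positivity)
      (by rw [div_le_one (by positivity)]; linarith)
    have h2 : (1 + 1 / (2 * ((t : ℝ) + 1))) ^ r ≤ Real.exp E := by
      calc (1 + 1 / (2 * ((t : ℝ) + 1))) ^ r ≤ (Real.exp (1 / (2 * ((t : ℝ) + 1)))) ^ r := by
            gcongr
            rw [add_comm]; exact Real.add_one_le_exp _
        _ = Real.exp E := by
            rw [← Real.exp_nat_mul, hrv]; congr 1; field_simp
    have h3 : (Sm.card : ℝ) = Sm.card * (1 / (2 * ((t : ℝ) + 1))) ^ E * (2 * (t + 1)) ^ E := by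
      rw [mul_assoc, ← mul_pow, one_div_mul_cancel (by positivity), one_pow, mul_one]
    rw [h3, mul_comm]
    gcongr
    exact h1.trans h2
  have hH1 : (1 : ℝ) ≤ H := by exact_mod_cast hH
  have hq : (1 - 1 / (8 * (H : ℝ))) ^ r ≤ Real.exp (-((t + 1) / (4 * H)) * E) := by
    calc (1 - 1 / (8 * (H : ℝ))) ^ r ≤ (Real.exp (-(1 / (8 * (H : ℝ))))) ^ r := by
          gcongr
          · have : 1 / (8 * (H : ℝ)) ≤ 1 := by rw [div_le_one (by positivity)]; linarith
            linarith
          · have := Real.add_one_le_exp (-(1 / (8 * (H : ℝ)))); linarith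
      _ = _ := by
          rw [← Real.exp_nat_mul, hrv]; congr 1; field_simp; ring
  have hq0 : 0 ≤ (1 - 1 / (8 * (H : ℝ))) ^ r := by
    apply pow_nonneg
    have : 1 / (8 * (H : ℝ)) ≤ 1 := by rw [div_le_one (by positivity)]; linarith
    linarith
  have hfin : M ^ r ≤ M ^ r * (8 * ((t : ℝ) + 1) * Real.exp (1 - (t + 1) / (4 * H))) ^ E := by
    calc M ^ r ≤ Adm.card * (2 ^ E * (M * (1 - 1 / (8 * H))) ^ r) := hsum
      _ = Adm.card * (2 ^ E * (M ^ r * (1 - 1 / (8 * H)) ^ r)) := by rw [mul_pow]
      _ ≤ ((2 * (t + 1)) ^ E * Real.exp E * 2 ^ E) *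
            (2 ^ E * (M ^ r * Real.exp (-((t + 1) / (4 * H)) * E))) := by
          gcongr
          refine hAdm.trans ?_
          gcongr
      _ = _ := by
          have e1 : Real.exp (1 - (t + 1) / (4 * H)) ^ E =
              Real.exp E * Real.exp (-((t + 1) / (4 * H)) * E) := by
            rw [← Real.exp_nat_mul, ← Real.exp_add]; congr 1; ring
          have e2 : (8 * ((t : ℝ) + 1)) ^ E = (2 * (t + 1)) ^ E * 2 ^ E * 2 ^ E := by
            rw [← mul_pow, ← mul_pow]; congr 1; ring
          rw [mul_pow (8 * ((t : ℝ) + 1)), e1, e2]; ring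
  have hlt : (8 * ((t : ℝ) + 1) * Real.exp (1 - (t + 1) / (4 * H))) ^ E < 1 :=
    pow_lt_one₀ (by positivity) hnum hEpos.ne'
  have hMr : 0 < M ^ r := by positivity
  nlinarith

end Pool.Agent.H193Z.Cube
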