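import Pool.Agent.H193Z.Cube.Code

/-! Decoding: few large rows force few large coordinates on the circle. -/

set_option autoImplicit false

open Finset

namespace Pool.Agent.H193Z.Cube

abbrev Tc := UnitAddCircle

lemma norm_two_nsmul (x : Tc) (h : ‖x‖ ≤ 1 / 4) : ‖(2 : ℕ) • x‖ = 2 * ‖x‖ := by
  obtain ⟨y, rfl⟩ := QuotientAddGroup.mk_surjective x
  have h1 : ((y - round y : ℝ) : Tc) = (y : Tc) := by
    rw [AddCircle.coe_sub]
    have : ((round y : ℝ) : Tc) = 0 := by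
      rw [AddCircle.coe_eq_zero_iff]; exact ⟨round y, by simp⟩
    rw [this, sub_zero]
  have h2 : ‖(y : Tc)‖ = |y - round y| := UnitAddCircle.norm_eq
  change ‖(2 : ℕ) • (y : Tc)‖ = 2 * ‖(y : Tc)‖
  change ‖(y : Tc)‖ ≤ 1 / 4 at h
  rw [h2] at h ⊢
  rw [← h1, ← AddCircle.coe_nsmul, (AddCircle.norm_coe_eq_abs_iff (1 : ℝ) one_ne_zero).2]
  · rw [nsmul_eq_mul, abs_mul]; norm_num
  · rw [nsmul_eq_mul, abs_mul]; norm_num; linarith

lemma dyadic (x : Tc) (A : ℕ) (h : ∀ a, a ≤ A → ‖(2 ^ a : ℕ) • x‖ ≤ 1 / 4) :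
    2 ^ A * ‖x‖ ≤ 1 / 4 := by
  have : ∀ a, a ≤ A → ‖(2 ^ a : ℕ) • x‖ = 2 ^ a * ‖x‖ := by
    intro a
    induction a with
    | zero => simp
    | succ a ih =>
      intro ha
      rw [pow_succ', mul_smul, norm_two_nsmul _ (h a (by omega)), ih (by omega)]
      ring
  rw [← this A le_rfl]; exact h A le_rfl

/-- the rows of the code -/
abbrev Rows (α : Type) := Fin 73 × (α ⊕ α)

noncomputable def val {α : Type} {t : ℕ} (N : α → Fin t → α) (u : α → Tc) : Rows α → Tc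
  | (a, Sum.inl i) => (2 ^ (a : ℕ) : ℕ) • u i
  | (a, Sum.inr j) => (2 ^ (a : ℕ) : ℕ) • ∑ c, u (N j c)

lemma val_nsmul {α : Type} {t : ℕ} (N : α → Fin t → α) (u : α → Tc) (L : ℕ) (ρ : Rows α) :
    L • val N u ρ = val N (fun i => L • u i) ρ := by
  rcases ρ with ⟨a, i | j⟩
  · simp only [val]; rw [smul_comm]
  · simp only [val]; rw [smul_comm, Finset.smul_sum]

lemma exists_large (x : Tc) (h : 1 / 2 ^ 74 < ‖x‖) :
    ∃ a : Fin 73, 1 / 4 < ‖(2 ^ (a : ℕ) : ℕ) • x‖ := by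
  by_contra hc
  push Not at hc
  have := dyadic x 72 fun a ha => hc ⟨a, by omega⟩
  have h2 : (2 : ℝ) ^ 72 * (1 / 2 ^ 74) < 2 ^ 72 * ‖x‖ := by gcongr
  norm_num at h2 this
  linarith

open Classical in
theorem decode {α : Type} [Fintype α] [DecidableEq α] (t : ℕ) (ht : t ≤ 2 ^ 27) (E F : ℕ)
    (N : α → Fin t → α)
    (hN : ∀ S S' : Finset α, S ⊆ S' → S'.card ≤ E → F ≤ S.card →
      E < (univ.filter fun j => Good S S' (N j)).card)
    (u : α → Tc) (hu : (univ.filter fun ρ => 1 / 4 < ‖val N u ρ‖).card ≤ E) :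
    (univ.filter fun i => 1 / 2 ^ 44 < ‖u i‖).card ≤ F := by
  by_contra hcon
  push Not at hcon
  set S := univ.filter fun i => (1 : ℝ) / 2 ^ 44 < ‖u i‖ with hS
  set S' := univ.filter fun i => (1 : ℝ) / 2 ^ 74 < ‖u i‖ with hS'
  have hsub : S ⊆ S' := by
    intro i hi
    simp only [hS, hS', mem_filter, mem_univ, true_and] at hi ⊢
    refine lt_trans ?_ hi
    norm_num
  have h1 : S'.card ≤ E := by
    refine le_trans ?_ hu
    have : ∀ i, i ∈ S' → ∃ a : Fin 73, 1 / 4 < ‖(2 ^ (a : ℕ) : ℕ) • u i‖ := fun i hi =>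
      exists_large _ (mem_filter.1 hi).2
    choose! f hf using this
    refine Finset.card_le_card_of_injOn (fun i => (f i, Sum.inl i)) ?_ ?_
    · intro i hi
      simp only [coe_filter, mem_univ, true_and, Set.mem_ofPred_eq, val]
      exact hf i hi
    · intro i _ j _ hij
      simpa using congrArg Prod.snd hij
  have h2 := hN S S' hsub h1 hcon.le
  have h3 : (univ.filter fun j => Good S S' (N j)).card ≤ E := by
    refine le_trans ?_ hu
    have : ∀ j, j ∈ (univ.filter fun j => Good S S' (N j)) →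
        ∃ a : Fin 73, 1 / 4 < ‖(2 ^ (a : ℕ) : ℕ) • ∑ c, u (N j c)‖ := by
      intro j hj
      obtain ⟨c, hc, hc'⟩ := (mem_filter.1 hj).2
      apply exists_large
      have e1 : u (N j c) = ∑ c', u (N j c') - ∑ c' ∈ univ.erase c, u (N j c') := by
        rw [← Finset.add_sum_erase univ _ (mem_univ c)]; abel
      have e2 : ‖∑ c' ∈ univ.erase c, u (N j c')‖ ≤ 2 ^ 27 * (1 / 2 ^ 74) := by
        refine (norm_sum_le _ _).trans ?_
        calc ∑ c' ∈ univ.erase c, ‖u (N j c')‖ ≤ ∑ _c' ∈ univ.erase c, (1 : ℝ) / 2 ^ 74 := by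
              refine Finset.sum_le_sum fun c' hc'' => ?_
              have := hc' c' (Finset.ne_of_mem_erase hc'')
              simpa [hS'] using this
          _ = (univ.erase c).card * ((1 : ℝ) / 2 ^ 74) := by simp
          _ ≤ _ := by
              gcongr
              have : (univ.erase c).card ≤ 2 ^ 27 :=
                (Finset.card_le_univ _).trans (by simpa using ht)
              exact_mod_cast this
      have e3 : (1 : ℝ) / 2 ^ 44 < ‖u (N j c)‖ := (mem_filter.1 hc).2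
      have e4 : ‖u (N j c)‖ ≤ ‖∑ c', u (N j c')‖ + ‖∑ c' ∈ univ.erase c, u (N j c')‖ := by
        rw [e1]; exact norm_sub_le _ _
      have e5 : (1 : ℝ) / 2 ^ 74 + 2 ^ 27 * (1 / 2 ^ 74) < 1 / 2 ^ 44 := by norm_num
      linarith
    choose! f hf using this
    refine Finset.card_le_card_of_injOn (fun j => (f j, Sum.inr j)) ?_ ?_
    · intro j hj
      simp only [coe_filter, mem_univ, true_and, Set.mem_ofPred_eq, val]
      exact hf j (by simpa using hj)
    · intro i _ j _ hij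
      simpa using congrArg Prod.snd hij
  omega

lemma hnum : 8 * (((2 ^ 27 - 1 : ℕ) : ℝ) + 1) *
    Real.exp (1 - (((2 ^ 27 - 1 : ℕ) : ℝ) + 1) / (4 * ((2 ^ 15 : ℕ) : ℝ))) < 1 := by
  have e1 : (((2 ^ 27 - 1 : ℕ) : ℝ) + 1) = 2 ^ 27 := by norm_num
  rw [e1]
  have e2 : (1 : ℝ) - 2 ^ 27 / (4 * ((2 ^ 15 : ℕ) : ℝ)) = -1023 := by norm_num
  rw [e2, Real.exp_neg]
  have h1 : (2 : ℝ) ^ 31 ≤ Real.exp 1023 := by
    have h2 : (2 : ℝ) ≤ Real.exp 1 := by have := Real.add_one_le_exp (1 : ℝ); linarith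
    calc (2 : ℝ) ^ 31 ≤ Real.exp 1 ^ 31 := by gcongr
      _ = Real.exp 31 := by rw [← Real.exp_nat_mul]; norm_num
      _ ≤ _ := by gcongr; norm_num
  rw [mul_inv_lt_iff₀ (Real.exp_pos _)]
  norm_num at h1 ⊢
  linarith

/-- the code: a graph on a set of `2^43 F` points with the decoding property -/
theorem exists_code {α : Type} [Fintype α] [DecidableEq α] (F : ℕ) (hF : 0 < F)
    (hα : Fintype.card α = 2 ^ 43 * F) :
    ∃ (t : ℕ) (N : α → Fin t → α), ∀ u : α → Tc,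
      (univ.filter fun ρ => 1 / 4 < ‖val N u ρ‖).card ≤ 2 ^ 15 * F →
      (univ.filter fun i => 1 / 2 ^ 44 < ‖u i‖).card ≤ F := by
  classical
  obtain ⟨N, hN⟩ := exists_graph (α := α) (2 ^ 27 - 1) (2 ^ 15) F (by norm_num) hF
    (by rw [hα]; ring_nf) hnum
  refine ⟨_, N, fun u hu => ?_⟩
  have := decode (2 ^ 27 - 1 + 1) (by norm_num) (2 ^ 15 * F) F N hN u (by convert hu)
  convert this

end Pool.Agent.H193Z.Cube
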