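import Pool.Agent.H193Z.Cube.System

/-! Positivity of the set, nullity of the cubic intersections. -/

set_option autoImplicit false
set_option maxHeartbeats 400000

open Finset MeasureTheory

namespace Pool.Agent.H193Z.Cube

lemma A0_meas : MeasurableSet A0 := by
  have : A0 = ⋂ e : Ee, ⋂ i : Fin (rr 0),
      {ω : Om | ‖ω (some e, ⟨0, out e, i⟩)‖ ≤ 1 / 2 ^ 45} := by
    ext ω; simp [A0]
  rw [this]
  refine MeasurableSet.iInter fun e => MeasurableSet.iInter fun i => ?_
  exact measurableSet_le (measurable_pi_apply _).norm measurable_const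

lemma A0_pos : 0 < mu Io A0 := by
  let U : Set Om := ⋂ e : Ee, ⋂ i : Fin (rr 0),
      {ω : Om | ‖ω (some e, ⟨0, out e, i⟩)‖ < 1 / 2 ^ 45}
  have hU : IsOpen U := isOpen_iInter_of_finite fun e => isOpen_iInter_of_finite fun i =>
    isOpen_lt (continuous_apply _).norm continuous_const
  have h0 : (0 : Om) ∈ U := by
    simp only [U, Set.mem_iInter, Set.mem_ofPred_eq, Pi.zero_apply, norm_zero]
    intro _ _; positivity
  refine lt_of_lt_of_le (hU.measure_pos (mu Io) ⟨0, h0⟩) (measure_mono ?_)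
  intro ω hω e i
  simp only [U, Set.mem_iInter, Set.mem_ofPred_eq] at hω
  exact (hω e i).le

lemma A1_meas : MeasurableSet A1 := by
  have : A1 = ⋂ e : Ee, ⋂ l : ℕ,
      ({ω : Om | (1 / 8 - 1 / 2 ^ 42 : ℝ) * (4096 * rr l) ≤ (hits (xco e l) II ω).card} ∩
      {ω : Om | ((hits (xco e l) IP ω).card : ℝ) ≤ (1 / 8 + 3 / 2 ^ 42 : ℝ) * (4096 * rr l)}) := by
    ext ω; simp only [A1, Set.mem_iInter, Set.mem_inter_iff, Set.mem_ofPred_eq]
  rw [this]
  refine MeasurableSet.iInter fun e => MeasurableSet.iInter fun l => MeasurableSet.inter ?_ ?_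
  · exact measurableSet_hits (xco e l) II II_meas
      fun K => (1 / 8 - 1 / 2 ^ 42 : ℝ) * (4096 * rr l) ≤ K.card
  · exact measurableSet_hits (xco e l) IP IP_meas
      fun K => (K.card : ℝ) ≤ (1 / 8 + 3 / 2 ^ 42 : ℝ) * (4096 * rr l)

lemma vol_ball (ε : ℝ) (h0 : 0 ≤ ε) (h : ε ≤ 1 / 2) :
    (volume : Measure Tc).real (Metric.closedBall 0 ε) = 2 * ε := by
  rw [Measure.real, AddCircle.volume_closedBall, min_eq_right (by linarith),
    ENNReal.toReal_ofReal (by linarith)]

lemma card_Blk (l : ℕ) : (Fintype.card (Blk l) : ℝ) = 4096 * rr l := by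
  simp [RR_eq]

lemma dev_le (e : Ee) (l : ℕ) (I : Set Tc) (hI : MeasurableSet I) (p : ℝ)
    (hp : (volume : Measure Tc).real I = p) :
    mu Io {ω | (1 : ℝ) / 2 ^ 42 * (4096 * rr l) ≤ |((hits (xco e l) I ω).card : ℝ) - p * (4096 * rr l)|}
      ≤ ENNReal.ofReal (1 / 2 ^ 31 * (1 / 2) ^ l) := by
  have := cheb (xco e l) (xco_inj e l) I hI p hp (1 / 2 ^ 42) (by positivity)
  rw [card_Blk] at this
  refine this.trans (le_of_eq ?_)
  congr 1
  rw [rr_eq, FF_eq]
  push_cast
  rw [one_div_pow (2 : ℝ) l]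
  field_simp
  norm_num

lemma A1_compl : mu Io A1ᶜ < 1 := by
  let B : Ee → ℕ → Set Om := fun e l =>
    {ω | (1 : ℝ) / 2 ^ 42 * (4096 * rr l) ≤
      |((hits (xco e l) II ω).card : ℝ) - (1 / 8) * (4096 * rr l)|} ∪
    {ω | (1 : ℝ) / 2 ^ 42 * (4096 * rr l) ≤
      |((hits (xco e l) IP ω).card : ℝ) - (1 / 8 + 2 / 2 ^ 42) * (4096 * rr l)|}
  have hsub : A1ᶜ ⊆ ⋃ e, ⋃ l, B e l := by
    intro ω hω
    simp only [A1, Set.mem_compl_iff, Set.mem_ofPred_eq, not_forall, not_and_or, not_le] at hω
    obtain ⟨e, l, h⟩ := hω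
    simp only [Set.mem_iUnion]
    refine ⟨e, l, ?_⟩
    rcases h with h | h
    · left
      rw [Set.mem_ofPred_eq]
      refine le_trans ?_ (neg_le_abs _)
      linarith
    · right
      rw [Set.mem_ofPred_eq]
      refine le_trans ?_ (le_abs_self _)
      linarith
  have hB : ∀ e l, mu Io (B e l) ≤ ENNReal.ofReal (1 / 2 ^ 30 * (1 / 2) ^ l) := by
    intro e l
    refine (measure_union_le _ _).trans ?_
    have h1 := dev_le e l II II_meas (1 / 8) (by
      rw [II, vol_ball _ (by norm_num) (by norm_num)]; norm_num)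
    have h2 := dev_le e l IP IP_meas (1 / 8 + 2 / 2 ^ 42) (by
      rw [IP, vol_ball _ (by norm_num) (by norm_num)]; norm_num)
    refine (add_le_add h1 h2).trans (le_of_eq ?_)
    rw [← ENNReal.ofReal_add (by positivity) (by positivity)]
    congr 1; ring
  have hB2 : ∀ e, mu Io (⋃ l, B e l) ≤ ENNReal.ofReal (1 / 2 ^ 29) := by
    intro e
    refine (measure_iUnion_le _).trans ((ENNReal.tsum_le_tsum (hB e)).trans (le_of_eq ?_))
    rw [← ENNReal.ofReal_tsum_of_nonneg (fun _ => by positivity)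
      (summable_geometric_two.mul_left _), tsum_mul_left, tsum_geometric_two]
    congr 1; norm_num
  calc mu Io A1ᶜ ≤ mu Io (⋃ e, ⋃ l, B e l) := measure_mono hsub
    _ ≤ ∑ e : Ee, mu Io (⋃ l, B e l) := measure_iUnion_fintype_le _ _
    _ ≤ ∑ _e : Ee, ENNReal.ofReal (1 / 2 ^ 29) := Finset.sum_le_sum fun e _ => hB2 e
    _ = ENNReal.ofReal (∑ _e : Ee, 1 / 2 ^ 29) :=
        (ENNReal.ofReal_sum_of_nonneg fun _ _ => by positivity).symm
    _ < 1 := by
        rw [ENNReal.ofReal_lt_one]
        simp only [sum_const, card_univ, Fintype.card_prod, Fintype.card_fin, Fintype.card_bool,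
          RR_eq, nsmul_eq_mul]
        norm_num

lemma AA_pos : 0 < mu Io (A0 ∩ A1) := by
  rw [indep_inter {κ : Io | ∃ e, κ.1 = some e ∧ κ.2.2.1 = out e} A0 A1 A0_meas A1_meas]
  · refine ENNReal.mul_pos ?_ A0_pos.ne'
    intro h
    have := A1_compl
    rw [prob_compl_eq_one_sub A1_meas, h] at this
    simp at this
  · intro ω ω' h hω e i
    rw [← h _ ⟨e, rfl, rfl⟩]; exact hω e i
  · intro ω ω' h hω e l
    have : ∀ I, hits (xco e l) I ω' = hits (xco e l) I ω := by
      intro I; ext j
      rw [mem_hits, mem_hits, h]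
      rintro ⟨e', h1, h2⟩
      simp only [xco, Option.some.injEq] at h1 h2
      subst h1
      exact emb_ne e l j h2
    rw [this, this]; exact hω e l

lemma small_all (a b : Ty → ℕ) (c : Bool → ℕ) (ω : Om) (h : ω ∈ A0 ∩ A1)
    (h' : ∀ e : Ee, (Tm e)^[a e.1 + b e.2.1 + c e.2.2] ω ∈ A0 ∩ A1) (l : ℕ) :
    ∀ e : Ee, Small (a e.1 + b e.2.1 + c e.2.2) ω l (out e) := by
  induction l with
  | zero => exact fun e => small_zero e _ ω h.1 (h' e).1
  | succ l ih =>
    intro e
    refine small_succ e _ ω l h.2 (h' e).2 fun s => ?_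
    obtain ⟨p, q, z⟩ := e
    have h1 : Small (a s + b q + c false) ω l s := ih (s, q, false)
    have h2 : Small (a p + b s + c true) ω l s := ih (p, s, true)
    have h3 : Small (a s + b s + c (!z)) ω l s := by
      have := ih (s, s, !z)
      rwa [show out (s, s, !z) = s by simp [out]] at this
    unfold Small at h1 h2 h3
    have hsub : (univ.filter fun i => 1 / 2 ^ 42 < ‖(a p + b q + c z) • ω (aco l s i)‖) ⊆
        (univ.filter fun i => 1 / 2 ^ 44 < ‖(a s + b q + c false) • ω (aco l s i)‖) ∪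
        (univ.filter fun i => 1 / 2 ^ 44 < ‖(a p + b s + c true) • ω (aco l s i)‖) ∪
        (univ.filter fun i => 1 / 2 ^ 44 < ‖(a s + b s + c (!z)) • ω (aco l s i)‖) := by
      intro i hi
      simp only [mem_filter, mem_univ, true_and, mem_union] at hi ⊢
      by_contra hc
      simp only [not_or, not_lt] at hc
      obtain ⟨⟨c1, c2⟩, c3⟩ := hc
      set x := ω (aco l s i)
      have e1 : (a p + b q + c z) • x = (a s + b q + c false) • x + (a p + b s + c true) • x -
          (a s + b s + c (!z)) • x := by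
        rw [eq_sub_iff_add_eq, ← add_nsmul, ← add_nsmul]
        congr 1
        cases z <;> simp <;> ring
      have e2 := (norm_sub_le ((a s + b q + c false) • x + (a p + b s + c true) • x)
        ((a s + b s + c (!z)) • x))
      have e3 := norm_add_le ((a s + b q + c false) • x) ((a p + b s + c true) • x)
      rw [← e1] at e2
      have e4 : (1 : ℝ) / 2 ^ 44 + 1 / 2 ^ 44 + 1 / 2 ^ 44 ≤ 1 / 2 ^ 42 := by norm_num
      linarith
    have := (Finset.card_le_card hsub).trans ((Finset.card_union_le _ _).trans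
      (Nat.add_le_add_right (Finset.card_union_le _ _) _))
    dsimp only
    omega

lemma small_null (L : ℕ) (hL : 0 < L) (s : Ty) : mu Io {ω | ∀ l, Small L ω l s} = 0 := by
  classical
  let I : Set Tc := (fun x : Tc => (L : ℤ) • x) ⁻¹' Metric.closedBall 0 (1 / 2 ^ 44)
  have hmp : MeasurePreserving (fun x : Tc => (L : ℤ) • x) volume volume :=
    Measure.measurePreserving_zsmul volume (by exact_mod_cast hL.ne')
  have hI : MeasurableSet I := hmp.measurable measurableSet_closedBall
  have hp : (volume : Measure Tc).real I = 2 * (1 / 2 ^ 44) := by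
    rw [← vol_ball _ (by norm_num) (by norm_num), Measure.real, Measure.real,
      hmp.measure_preimage measurableSet_closedBall.nullMeasurableSet]
  have hle : ∀ l, mu Io {ω | ∀ l, Small L ω l s} ≤ ENNReal.ofReal ((1 / 2) ^ l) := by
    intro l
    have h := cheb (aco l s) (aco_inj l s) I hI _ hp (1 / 2) (by norm_num)
    rw [Fintype.card_fin] at h
    have h3 : (rr l : ℝ) = 2 ^ 43 * FF l := by rw [rr_eq]; push_cast; ring
    refine le_trans (measure_mono ?_) (h.trans (ENNReal.ofReal_le_ofReal ?_))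
    · intro ω hω
      have h1 := hω l
      unfold Small at h1
      have h2 : (hits (aco l s) I ω).card +
          (univ.filter fun i => 1 / 2 ^ 44 < ‖L • ω (aco l s i)‖).card = rr l := by
        have := Finset.card_filter_add_card_filter_not (s := (univ : Finset (Fin (rr l))))
          fun i => ω (aco l s i) ∈ I
        rw [card_univ, Fintype.card_fin] at this
        refine Eq.trans ?_ this
        congr 2
        ext i; simp [I]
      have h4 : (rr l : ℝ) ≤ (hits (aco l s) I ω).card + FF l := by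
        exact_mod_cast (by omega : rr l ≤ (hits (aco l s) I ω).card + FF l)
      have h5 : (0 : ℝ) ≤ FF l := Nat.cast_nonneg _
      rw [Set.mem_ofPred_eq]
      refine le_trans ?_ (le_abs_self _)
      rw [h3] at h4 ⊢
      linarith
    · rw [h3, FF_eq]
      push_cast
      rw [one_div_pow, one_div_pow, div_le_div_iff₀ (by positivity) (by positivity)]
      have : (0 : ℝ) < 2 ^ l := by positivity
      nlinarith
  have ht : Filter.Tendsto (fun l : ℕ => ENNReal.ofReal ((1 / 2) ^ l)) Filter.atTop (nhds 0) := by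
    rw [← ENNReal.ofReal_zero]
    exact ENNReal.tendsto_ofReal (tendsto_pow_atTop_nhds_zero_of_lt_one (by norm_num) (by norm_num))
  exact le_antisymm (ge_of_tendsto' ht hle) (zero_le)

/-- The counterexample, indexed by an arbitrary enumeration of the coordinates. -/
theorem counter : ∃ (k : ℕ) (T : (Fin k → Fin 2) → Om → Om) (A : Set Om),
    (∀ ε, MeasurePreserving (T ε) (mu Io) (mu Io)) ∧ MeasurableSet A ∧ 0 < mu Io A ∧
    ∀ n : Fin k → ℕ, (∀ i, 0 < n i) →
      mu Io (⋂ ε : Fin k → Fin 2, (T ε)^[∑ i, ((ε i : ℕ) * n i)] ⁻¹' A) = 0 := by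
  classical
  let κ := Ty ⊕ Ty ⊕ Bool
  let k := Fintype.card κ
  let φ : κ ≃ Fin k := Fintype.equivFin κ
  let sup : Ee → Finset κ := fun e =>
    {Sum.inl e.1, Sum.inr (Sum.inl e.2.1), Sum.inr (Sum.inr e.2.2)}
  let vec : Ee → Fin k → Fin 2 := fun e i => if φ.symm i ∈ sup e then 1 else 0
  have hvec : Function.Injective vec := by
    intro e e' h
    have h1 : ∀ x, x ∈ sup e → x ∈ sup e' := by
      intro x hx
      have := congrFun h (φ x)
      simp only [vec, Equiv.symm_apply_apply, if_pos hx] at this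
      by_contra hx'
      rw [if_neg hx'] at this
      exact absurd this (by decide)
    have a1 := h1 (Sum.inl e.1) (by simp [sup])
    have a2 := h1 (Sum.inr (Sum.inl e.2.1)) (by simp [sup])
    have a3 := h1 (Sum.inr (Sum.inr e.2.2)) (by simp [sup])
    simp only [sup, κ, mem_insert, Sum.inl.injEq, Sum.inr.injEq, reduceCtorEq, mem_singleton,
      or_false, false_or] at a1 a2 a3
    exact Prod.ext a1 (Prod.ext a2 a3)
  have hsum : ∀ (n : Fin k → ℕ) (e : Ee), ∑ i, ((vec e i : ℕ) * n i) =
      n (φ (Sum.inl e.1)) + n (φ (Sum.inr (Sum.inl e.2.1))) + n (φ (Sum.inr (Sum.inr e.2.2))) := by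
    intro n e
    rw [← φ.sum_comp]
    have : ∀ x : κ, ((vec e (φ x) : ℕ) * n (φ x)) = if x ∈ sup e then n (φ x) else 0 := by
      intro x
      simp only [vec, Equiv.symm_apply_apply]
      split_ifs <;> simp
    simp_rw [this]
    rw [Finset.sum_ite_mem, univ_inter]
    simp only [sup]
    rw [Finset.sum_insert (by simp [κ]), Finset.sum_insert (by simp [κ]), Finset.sum_singleton,
      add_assoc]
  let T : (Fin k → Fin 2) → Om → Om := Function.extend vec Tm fun _ => id
  have hT : ∀ e, T (vec e) = Tm e := fun e => hvec.extend_apply _ _ _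
  refine ⟨k, T, A0 ∩ A1, fun ε => ?_, A0_meas.inter A1_meas, AA_pos, fun n hn => ?_⟩
  · by_cases h : ∃ e, vec e = ε
    · obtain ⟨e, rfl⟩ := h
      rw [hT]; exact Tm_mp e
    · have : T ε = id := Function.extend_apply' _ _ _ h
      rw [this]; exact MeasurePreserving.id _
  · let e0 : Ee := (0, 0, false)
    refine measure_mono_null ?_ (small_null (n (φ (Sum.inl e0.1)) +
      n (φ (Sum.inr (Sum.inl e0.2.1))) + n (φ (Sum.inr (Sum.inr e0.2.2))))
      (Nat.add_pos_right _ (hn _)) (out e0))
    intro ω hω l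
    rw [Set.mem_iInter] at hω
    refine small_all (fun p => n (φ (Sum.inl p))) (fun q => n (φ (Sum.inr (Sum.inl q))))
      (fun z => n (φ (Sum.inr (Sum.inr z)))) ω ?_ (fun e => ?_) l e0
    · simpa using hω fun _ => 0
    · have := hω (vec e)
      rw [hT, hsum] at this
      exact this

end Pool.Agent.H193Z.Cube
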