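import Pool.Agent.H193Z.Cube.Decode

/-! Haar measure on a countable power of the circle: shears, independence, Chebyshev. -/

set_option autoImplicit false

open Finset MeasureTheory ProbabilityTheory

namespace Pool.Agent.H193Z.Cube

noncomputable def mu (ι : Type) [Countable ι] : Measure (ι → Tc) :=
  Measure.addHaarMeasure ⊤

instance (ι : Type) [Countable ι] : (mu ι).IsAddHaarMeasure := by
  unfold mu; infer_instance

instance (ι : Type) [Countable ι] : IsProbabilityMeasure (mu ι) :=
  ⟨by
    have := Measure.addHaarMeasure_self (K₀ := (⊤ : TopologicalSpace.PositiveCompacts (ι → Tc)))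
    simpa [mu] using this⟩

instance : IsProbabilityMeasure (volume : Measure Tc) := ⟨by simp⟩

variable {ι : Type} [Countable ι]

open Classical in
/-- take the coordinates in `D` from the second point, the others from the first -/
noncomputable def mix (D : Set ι) : ((ι → Tc) × (ι → Tc)) →+ (ι → Tc) where
  toFun p := fun i => if i ∈ D then p.2 i else p.1 i
  map_zero' := by ext i; simp
  map_add' p q := by ext i; by_cases h : i ∈ D <;> simp [h]

omit [Countable ι] in
lemma mix_of_mem {D : Set ι} {i : ι} (h : i ∈ D) (p : (ι → Tc) × (ι → Tc)) :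
    mix D p i = p.2 i := by simp [mix, h]

omit [Countable ι] in
lemma mix_of_notMem {D : Set ι} {i : ι} (h : i ∉ D) (p : (ι → Tc) × (ι → Tc)) :
    mix D p i = p.1 i := by simp [mix, h]

lemma mix_mp (D : Set ι) : MeasurePreserving (mix D) ((mu ι).prod (mu ι)) (mu ι) := by
  have : ((mu ι).prod (mu ι)).IsAddHaarMeasure := Measure.prod.instIsAddHaarMeasure _ _
  refine AddMonoidHom.measurePreserving ?_ ?_ (by simp)
  · refine continuous_pi fun i => ?_
    by_cases h : i ∈ D
    · simp only [mix_of_mem h]; fun_prop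
    · simp only [mix_of_notMem h]; fun_prop
  · intro x
    refine ⟨(x, x), ?_⟩
    ext i
    by_cases h : i ∈ D
    · simp only [mix_of_mem h]
    · simp only [mix_of_notMem h]

lemma shear_mp (D : Set ι) (g : (ι → Tc) → ι → Tc) (hg : Measurable g)
    (h1 : ∀ ω i, i ∉ D → g ω i = 0)
    (h2 : ∀ ω ω', (∀ i, i ∉ D → ω i = ω' i) → g ω = g ω') :
    MeasurePreserving (fun ω => ω + g ω) (mu ι) (mu ι) := by
  have hm : Measurable fun ω : ι → Tc => ω + g ω := measurable_id.add hg
  have hskew : MeasurePreserving (fun p : (ι → Tc) × (ι → Tc) => (p.1, p.2 + g p.1))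
      ((mu ι).prod (mu ι)) ((mu ι).prod (mu ι)) := by
    refine (MeasurePreserving.id (mu ι)).skew_product (g := fun a c => c + g a) ?_ ?_
    · exact measurable_snd.add (hg.comp measurable_fst)
    · exact ae_of_all _ fun a => map_add_right_eq_self (mu ι) (g a)
  have hcomm : (fun ω => ω + g ω) ∘ mix D =
      mix D ∘ fun p : (ι → Tc) × (ι → Tc) => (p.1, p.2 + g p.1) := by
    funext p
    have e : g (mix D p) = g p.1 := h2 _ _ fun i hi => mix_of_notMem hi p
    ext i
    by_cases h : i ∈ D
    · simp [mix_of_mem h, e]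
    · simp [mix_of_notMem h, h1 _ _ h]
  refine ⟨hm, ?_⟩
  have h3 := ((mix_mp D).comp hskew).map_eq
  rw [← hcomm, ← Measure.map_map hm (mix_mp D).measurable, (mix_mp D).map_eq] at h3
  exact h3

lemma indep_inter (D : Set ι) (A B : Set (ι → Tc)) (hA : MeasurableSet A) (hB : MeasurableSet B)
    (h1 : ∀ ω ω', (∀ i, i ∈ D → ω i = ω' i) → ω ∈ A → ω' ∈ A)
    (h2 : ∀ ω ω', (∀ i, i ∉ D → ω i = ω' i) → ω ∈ B → ω' ∈ B) :
    mu ι (A ∩ B) = mu ι B * mu ι A := by
  rw [← (mix_mp D).measure_preimage (hA.inter hB).nullMeasurableSet, ← Measure.prod_prod]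
  congr 1
  ext p
  simp only [Set.mem_preimage, Set.mem_inter_iff, Set.mem_prod]
  constructor
  · rintro ⟨a, b⟩
    exact ⟨h2 _ _ (fun i hi => mix_of_notMem hi p) b, h1 _ _ (fun i hi => mix_of_mem hi p) a⟩
  · rintro ⟨b, a⟩
    exact ⟨h1 _ _ (fun i hi => (mix_of_mem hi p).symm) a,
      h2 _ _ (fun i hi => (mix_of_notMem hi p).symm) b⟩

open Classical in
/-- the coordinates of a block lying in `I` -/
noncomputable def hits {J : Type} [Fintype J] (φ : J → ι) (I : Set Tc) (ω : ι → Tc) : Finset J :=
  univ.filter fun j => ω (φ j) ∈ I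

omit [Countable ι] in
lemma mem_hits {J : Type} [Fintype J] {φ : J → ι} {I : Set Tc} {ω : ι → Tc} {j : J} :
    j ∈ hits φ I ω ↔ ω (φ j) ∈ I := by simp [hits]

omit [Countable ι] in
lemma measurableSet_hits {J : Type} [Fintype J] (φ : J → ι) (I : Set Tc) (hI : MeasurableSet I)
    (Q : Finset J → Prop) : MeasurableSet {ω | Q (hits φ I ω)} := by
  have : {ω | Q (hits φ I ω)} = ⋃ K ∈ {K : Finset J | Q K}, ⋂ j, {ω | ω (φ j) ∈ I ↔ j ∈ K} := by
    ext ω
    simp only [Set.mem_ofPred_eq, Set.mem_iUnion, Set.mem_iInter, exists_prop]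
    constructor
    · intro h; exact ⟨_, h, fun j => mem_hits.symm⟩
    · rintro ⟨K, hK, h⟩
      have : hits φ I ω = K := by ext j; rw [mem_hits, h]
      rwa [this]
  rw [this]
  refine MeasurableSet.biUnion (Set.to_countable _) fun K _ => MeasurableSet.iInter fun j => ?_
  by_cases h : j ∈ K
  · simp only [h, iff_true]; exact measurable_pi_apply _ hI
  · simp only [h, iff_false]; exact (measurable_pi_apply (φ j) hI).compl

lemma restrict_mp {J : Type} [Fintype J] (φ : J → ι) (hφ : Function.Injective φ) :
    MeasurePreserving (fun (ω : ι → Tc) (j : J) => ω (φ j)) (mu ι)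
      (Measure.pi fun _ : J => (volume : Measure Tc)) := by
  let f : (ι → Tc) →+ (J → Tc) :=
    { toFun := fun ω j => ω (φ j), map_zero' := rfl, map_add' := fun _ _ => rfl }
  refine AddMonoidHom.measurePreserving (f := f) ?_ ?_ (by simp)
  · exact continuous_pi fun j => continuous_apply _
  · intro z
    refine ⟨Function.extend φ z 0, ?_⟩
    ext j
    exact hφ.extend_apply _ _ _

theorem cheb {J : Type} [Fintype J] [Nonempty J] (φ : J → ι) (hφ : Function.Injective φ)
    (I : Set Tc) (hI : MeasurableSet I) (p : ℝ) (hp : (volume : Measure Tc).real I = p)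
    (σ : ℝ) (hσ : 0 < σ) :
    mu ι {ω | σ * Fintype.card J ≤ |((hits φ I ω).card : ℝ) - p * Fintype.card J|} ≤
      ENNReal.ofReal (1 / (σ ^ 2 * Fintype.card J)) := by
  classical
  let ν : Measure (J → Tc) := Measure.pi fun _ : J => (volume : Measure Tc)
  let Y : Tc → ℝ := I.indicator 1
  have hY : MemLp Y 2 (volume : Measure Tc) :=
    (memLp_const (1 : ℝ)).indicator hI
  let X : (J → Tc) → ℝ := ∑ j, fun z => Y (z j)
  have hXj : ∀ j, MemLp (fun z : J → Tc => Y (z j)) 2 ν := fun j =>
    hY.comp_measurePreserving (measurePreserving_eval _ j)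
  have hX : MemLp X 2 ν := memLp_finsetSum' _ fun j _ => hXj j
  have hn : (0 : ℝ) < Fintype.card J := by exact_mod_cast Fintype.card_pos
  have hmean : ∫ z, X z ∂ν = p * Fintype.card J := by
    simp only [X, Finset.sum_apply]
    rw [integral_finsetSum _ fun j _ => (hXj j).integrable (by norm_num)]
    have : ∀ j, ∫ z, Y (z j) ∂ν = p := by
      intro j
      rw [← hp, ← integral_indicator_one hI]
      have hmp := measurePreserving_eval (fun _ : J => (volume : Measure Tc)) j
      have := integral_map (μ := ν) (φ := Function.eval j) hmp.measurable.aemeasurable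
        (f := Y) (by rw [hmp.map_eq]; exact hY.aestronglyMeasurable)
      rw [hmp.map_eq] at this
      exact this.symm
    simp [this, mul_comm]
  have hvar : Var[X; ν] ≤ Fintype.card J := by
    have h1 : Var[X; ν] = ∑ _j : J, Var[Y; volume] := variance_sum_pi fun _ => hY
    have h2 : Var[Y; volume] ≤ ((1 - 0) / 2) ^ 2 := by
      refine variance_le_sq_of_bounded (ae_of_all _ fun x => ?_) hY.aemeasurable
      by_cases h : x ∈ I <;> simp [Y, h]
    rw [h1]
    simp only [sum_const, card_univ, nsmul_eq_mul]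
    nlinarith
  have h := meas_ge_le_variance_div_sq hX (c := σ * Fintype.card J) (by positivity)
  have hXm : Measurable X := by
    have : X = fun z => ∑ j, Y (z j) := by funext z; simp [X, Finset.sum_apply]
    rw [this]
    refine Finset.measurable_sum _ fun j _ => ?_
    exact (measurable_one.indicator hI).comp (measurable_pi_apply j)
  have hset : {ω | σ * Fintype.card J ≤ |((hits φ I ω).card : ℝ) - p * Fintype.card J|} =
      (fun (ω : ι → Tc) (j : J) => ω (φ j)) ⁻¹' {z | σ * Fintype.card J ≤ |X z - ν[X]|} := by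
    ext ω
    simp only [Set.mem_ofPred_eq, Set.mem_preimage, hmean]
    have : X (fun j => ω (φ j)) = (hits φ I ω).card := by
      simp [X, Y, hits, Finset.sum_apply, Set.indicator_apply]
    rw [this]
  rw [hset, (restrict_mp φ hφ).measure_preimage]
  · refine h.trans (ENNReal.ofReal_le_ofReal ?_)
    rw [div_le_div_iff₀ (by positivity) (by positivity)]
    have : 0 ≤ σ ^ 2 * Fintype.card J := by positivity
    nlinarith
  · exact (measurableSet_le measurable_const
      ((hXm.sub measurable_const).abs)).nullMeasurableSet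

end Pool.Agent.H193Z.Cube
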