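import Pool.Agent.H193Z.Cube.Haar

/-! The measure preserving maps of the counterexample and the propagation of smallness. -/

set_option autoImplicit false

open Finset MeasureTheory

namespace Pool.Agent.H193Z.Cube

@[irreducible] def RR : ℕ := 4096
@[irreducible] def FF (l : ℕ) : ℕ := 2 ^ 60 * 2 ^ l
@[irreducible] def rr (l : ℕ) : ℕ := 2 ^ 43 * FF l

lemma RR_eq : RR = 4096 := by unfold RR; rfl
lemma FF_eq (l : ℕ) : FF l = 2 ^ 60 * 2 ^ l := by unfold FF; rfl
lemma rr_eq (l : ℕ) : rr l = 2 ^ 43 * FF l := by unfold rr; rfl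
lemma FF_pos (l : ℕ) : 0 < FF l := by rw [FF_eq]; positivity
lemma FF_succ (l : ℕ) : FF (l + 1) = 2 * FF l := by rw [FF_eq, FF_eq]; ring
lemma rr_pos (l : ℕ) : 0 < rr l := by rw [rr_eq]; have := FF_pos l; positivity

instance (l : ℕ) : Nonempty (Fin (rr l)) := ⟨⟨0, rr_pos l⟩⟩
instance : Nonempty (Fin RR) := ⟨⟨0, by rw [RR_eq]; norm_num⟩⟩

/-- types of frequencies -/
abbrev Ty := Fin (RR + 1)
/-- the vertices of the cube that are used -/
abbrev Ee := Ty × Ty × Bool
/-- frequencies -/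
abbrev Lam := Σ l : ℕ, Ty × Fin (rr l)
abbrev Io := Option Ee × Lam
abbrev Om := Io → Tc
abbrev Blk (l : ℕ) := Fin RR × Fin (rr l)

def out (e : Ee) : Ty := if e.2.2 then e.2.1 else e.1

def emb (e : Ee) (l : ℕ) (j : Blk l) : Ty × Fin (rr l) := ((out e).succAbove j.1, j.2)

lemma emb_inj (e : Ee) (l : ℕ) : Function.Injective (emb e l) := by
  rintro ⟨a, b⟩ ⟨c, d⟩ h
  simp only [emb, Prod.mk.injEq] at h
  rw [Fin.succAbove_right_injective h.1, h.2]

lemma emb_ne (e : Ee) (l : ℕ) (j : Blk l) : (emb e l j).1 ≠ out e := Fin.succAbove_ne _ _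

def xco (e : Ee) (l : ℕ) (j : Blk l) : Io := (some e, ⟨l, emb e l j⟩)

lemma xco_inj (e : Ee) (l : ℕ) : Function.Injective (xco e l) := by
  intro a b h
  simp only [xco, Prod.mk.injEq, Sigma.mk.injEq, heq_eq_eq, true_and] at h
  exact emb_inj e l h

def aco (l : ℕ) (s : Ty) (i : Fin (rr l)) : Io := (none, ⟨l, s, i⟩)

lemma aco_inj (l : ℕ) (s : Ty) : Function.Injective (aco l s) := by
  intro a b h
  simpa [aco] using h

lemma code_ex (l : ℕ) : ∃ (t : ℕ) (N : Fin (rr l) → Fin t → Fin (rr l)), ∀ u : Fin (rr l) → Tc,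
      (univ.filter fun ρ => 1 / 4 < ‖val N u ρ‖).card ≤ 2 ^ 15 * FF l →
      (univ.filter fun i => 1 / 2 ^ 44 < ‖u i‖).card ≤ FF l :=
  exists_code (FF l) (FF_pos l) (by rw [Fintype.card_fin, rr_eq])

noncomputable def tt (l : ℕ) : ℕ := (code_ex l).choose
noncomputable def NN (l : ℕ) : Fin (rr l) → Fin (tt l) → Fin (rr l) := (code_ex l).choose_spec.choose

lemma NN_spec (l : ℕ) (u : Fin (rr l) → Tc)
    (h : (univ.filter fun ρ => 1 / 4 < ‖val (NN l) u ρ‖).card ≤ 2 ^ 15 * FF l) :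
    (univ.filter fun i => 1 / 2 ^ 44 < ‖u i‖).card ≤ FF l :=
  (code_ex l).choose_spec.choose_spec u h

lemma asg_ex (l : ℕ) (K : Finset (Blk l)) : ∃ f : Rows (Fin (rr (l + 1))) → Blk l,
    292 * rr l ≤ K.card → Function.Injective f ∧ ∀ ρ, f ρ ∈ K := by
  classical
  by_cases h : 292 * rr l ≤ K.card
  · have h1 : Fintype.card (Rows (Fin (rr (l + 1)))) ≤ Fintype.card K := by
      simp only [Fintype.card_prod, Fintype.card_fin, Fintype.card_sum, Fintype.card_coe]
      rw [rr_eq (l + 1), FF_succ]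
      rw [rr_eq] at h
      omega
    obtain ⟨f⟩ := Function.Embedding.nonempty_of_card_le h1
    exact ⟨fun ρ => (f ρ).1, fun _ => ⟨Subtype.val_injective.comp f.injective, fun ρ => (f ρ).2⟩⟩
  · exact ⟨fun _ => Classical.arbitrary _, fun h' => absurd h' h⟩

noncomputable def asg (l : ℕ) (K : Finset (Blk l)) : Rows (Fin (rr (l + 1))) → Blk l :=
  (asg_ex l K).choose

def II : Set Tc := Metric.closedBall 0 (1 / 16)
def IP : Set Tc := Metric.closedBall 0 (1 / 16 + 1 / 2 ^ 42)

lemma II_meas : MeasurableSet II := measurableSet_closedBall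
lemma IP_meas : MeasurableSet IP := measurableSet_closedBall
lemma II_sub : II ⊆ IP := Metric.closedBall_subset_closedBall (by norm_num)

open Classical in
/-- the correction of the frequencies seen by the vertex `e` -/
noncomputable def gg (e : Ee) (ω : Om) : Om
  | (none, ψ) => ∑ ρ : Rows (Fin (rr (ψ.1 + 1))),
      if emb e ψ.1 (asg ψ.1 (hits (xco e ψ.1) II ω) ρ) = ψ.2 then
        val (NN (ψ.1 + 1)) (fun i => ω (aco (ψ.1 + 1) (out e) i)) ρ else 0
  | (some _, _) => 0

def DD (e : Ee) : Set Io := {κ | κ.1 = none ∧ κ.2.2.1 ≠ out e}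

lemma gg_zero (e : Ee) (ω : Om) (κ : Io) (h : κ ∉ DD e) : gg e ω κ = 0 := by
  rcases κ with ⟨_ | e', ψ⟩
  · simp only [DD, Set.mem_ofPred_eq, true_and, not_not] at h
    simp only [gg]
    refine Finset.sum_eq_zero fun ρ _ => if_neg fun h' => ?_
    exact emb_ne e _ _ (by rw [h']; exact h)
  · rfl

lemma gg_congr (e : Ee) (ω ω' : Om) (h : ∀ κ, κ ∉ DD e → ω κ = ω' κ) : gg e ω = gg e ω' := by
  have h1 : ∀ l, hits (xco e l) II ω = hits (xco e l) II ω' := by
    intro l; ext j
    rw [mem_hits, mem_hits, h]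
    simp [DD, xco]
  have h2 : ∀ l, (fun i => ω (aco l (out e) i)) = fun i => ω' (aco l (out e) i) := by
    intro l; funext i
    apply h
    simp [DD, aco]
  funext κ
  rcases κ with ⟨_ | e', ψ⟩
  · simp only [gg, h1, h2]
  · rfl

lemma val_meas {α : Type} {t : ℕ} (N : α → Fin t → α) (φ : α → Io) (ρ : Rows α) :
    Measurable fun ω : Om => val N (fun i => ω (φ i)) ρ := by
  rcases ρ with ⟨a, i | j⟩
  · simp only [val]
    exact (continuous_nsmul _).measurable.comp (measurable_pi_apply (φ i))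
  · simp only [val]
    have : Measurable fun ω : Om => ∑ c, ω (φ (N j c)) :=
      Finset.measurable_sum _ fun c _ => measurable_pi_apply (φ (N j c))
    exact (continuous_nsmul _).measurable.comp this

lemma gg_meas (e : Ee) : Measurable (gg e) := by
  refine measurable_pi_lambda _ fun κ => ?_
  rcases κ with ⟨_ | e', ψ⟩
  · simp only [gg]
    refine Finset.measurable_sum _ fun ρ _ => Measurable.ite ?_ (val_meas _ _ _) measurable_const
    exact measurableSet_hits (xco e ψ.1) II II_meas fun K => emb e ψ.1 (asg ψ.1 K ρ) = ψ.2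
  · exact measurable_const

open Classical in
noncomputable def hh (e : Ee) (ω : Om) : Om := fun κ => if κ.1 = some e then ω (none, κ.2) else 0

lemma hh_meas (e : Ee) : Measurable (hh e) := by
  refine measurable_pi_lambda _ fun κ => ?_
  by_cases h : κ.1 = some e
  · simp only [hh, if_pos h]; exact measurable_pi_apply _
  · simp only [hh, if_neg h]; exact measurable_const

noncomputable def Phi (e : Ee) (ω : Om) : Om := ω + gg e ω
noncomputable def Psi (e : Ee) (ω : Om) : Om := ω + -gg e ω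
noncomputable def Rot (e : Ee) (ω : Om) : Om := ω + hh e ω
noncomputable def Tm (e : Ee) : Om → Om := Psi e ∘ Rot e ∘ Phi e

lemma Tm_mp (e : Ee) : MeasurePreserving (Tm e) (mu Io) (mu Io) := by
  have h1 : MeasurePreserving (Phi e) (mu Io) (mu Io) :=
    shear_mp (DD e) (gg e) (gg_meas e) (gg_zero e) (gg_congr e)
  have h2 : MeasurePreserving (Psi e) (mu Io) (mu Io) :=
    shear_mp (DD e) (fun ω => -gg e ω) (gg_meas e).neg
      (fun ω κ h => by simp [gg_zero e ω κ h])
      (fun ω ω' h => by simp only [gg_congr e ω ω' h])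
  have h3 : MeasurePreserving (Rot e) (mu Io) (mu Io) := by
    refine shear_mp {κ | κ.1 = some e} (hh e) (hh_meas e) (fun ω κ h => by simp only [hh]; exact if_neg h) ?_
    intro ω ω' h
    funext κ
    simp only [hh]
    rw [h (none, κ.2) (by simp)]
  exact h2.comp (h3.comp h1)

lemma Phi_Psi (e : Ee) (ω : Om) : Phi e (Psi e ω) = ω := by
  have : gg e (Psi e ω) = gg e ω :=
    gg_congr e _ _ fun κ h => by simp [Psi, gg_zero e ω κ h]
  rw [Phi, this, Psi]; abel

lemma Phi_iter (e : Ee) (L : ℕ) (ω : Om) : Phi e ((Tm e)^[L] ω) = (Rot e)^[L] (Phi e ω) := by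
  induction L with
  | zero => rfl
  | succ L ih =>
    rw [Function.iterate_succ_apply', Function.iterate_succ_apply', ← ih]
    exact Phi_Psi e _

lemma Rot_iter (e : Ee) (L : ℕ) (ω : Om) (ψ : Lam) :
    (Rot e)^[L] ω (none, ψ) = ω (none, ψ) ∧
      (Rot e)^[L] ω (some e, ψ) = ω (some e, ψ) + L • ω (none, ψ) := by
  induction L with
  | zero => simp
  | succ L ih =>
    rw [Function.iterate_succ_apply']
    constructor
    · simp [Rot, hh, ih.1]
    · simp only [Rot, hh, Pi.add_apply, if_true, ih.1, ih.2, succ_nsmul, add_assoc]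

lemma Tm_iter (e : Ee) (L : ℕ) (ω : Om) (ψ : Lam) :
    (Tm e)^[L] ω (some e, ψ) = ω (some e, ψ) + L • (ω (none, ψ) + gg e ω (none, ψ)) := by
  have h1 := congrFun (Phi_iter e L ω) (some e, ψ)
  rw [(Rot_iter e L _ ψ).2] at h1
  simpa [Phi, gg] using h1

def A0 : Set Om := {ω | ∀ e i, ‖ω (some e, ⟨0, out e, i⟩)‖ ≤ 1 / 2 ^ 45}

def A1 : Set Om := {ω | ∀ e l,
  (1 / 8 - 1 / 2 ^ 42 : ℝ) * (4096 * rr l) ≤ (hits (xco e l) II ω).card ∧
  ((hits (xco e l) IP ω).card : ℝ) ≤ (1 / 8 + 3 / 2 ^ 42 : ℝ) * (4096 * rr l)}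

/-- smallness of the multiples of the frequencies of one type on one level -/
def Small (L : ℕ) (ω : Om) (l : ℕ) (s : Ty) : Prop :=
  (univ.filter fun i => 1 / 2 ^ 44 < ‖L • ω (aco l s i)‖).card ≤ FF l

lemma small_zero (e : Ee) (L : ℕ) (ω : Om) (h : ω ∈ A0) (h' : (Tm e)^[L] ω ∈ A0) :
    Small L ω 0 (out e) := by
  unfold Small
  rw [Finset.filter_eq_empty_iff.2, card_empty]
  · exact Nat.zero_le _
  intro i _
  have h1 := h e i
  have h2 := h' e i
  rw [Tm_iter, gg_zero e ω _ (by simp [DD]), add_zero] at h2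
  have h3 := norm_sub_le (ω (some e, ⟨0, out e, i⟩) + L • ω (none, ⟨0, out e, i⟩))
    (ω (some e, ⟨0, out e, i⟩))
  rw [add_sub_cancel_left] at h3
  simp only [aco, not_lt]
  have : (1 : ℝ) / 2 ^ 45 + 1 / 2 ^ 45 = 1 / 2 ^ 44 := by norm_num
  linarith

lemma small_succ (e : Ee) (L : ℕ) (ω : Om) (l : ℕ) (h : ω ∈ A1) (h' : (Tm e)^[L] ω ∈ A1)
    (hin : ∀ s, (univ.filter fun i => 1 / 2 ^ 42 < ‖L • ω (aco l s i)‖).card ≤ 3 * FF l) :
    Small L ω (l + 1) (out e) := by
  classical
  apply NN_spec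
  set u : Fin (rr (l + 1)) → Tc := fun i => L • ω (aco (l + 1) (out e) i) with hu
  generalize hExc' : (univ.filter fun ρ => 1 / 4 < ‖val (NN (l + 1)) u ρ‖) = Exc
  have hExc : ∀ ρ, ρ ∈ Exc → 1 / 4 < ‖val (NN (l + 1)) u ρ‖ := by
    intro ρ hρ
    rw [← hExc', mem_filter] at hρ
    exact hρ.2
  clear hExc'
  set K := hits (xco e l) II ω with hK
  set f := asg l K with hf
  have hr : (0 : ℝ) < rr l := by exact_mod_cast rr_pos l
  have hKc : 292 * rr l ≤ K.card := by
    have h1 := (h e l).1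
    have h2 : (292 : ℝ) * rr l ≤ (1 / 8 - 1 / 2 ^ 42 : ℝ) * (4096 * rr l) := by
      rw [← mul_assoc]; gcongr; norm_num
    exact_mod_cast h2.trans h1
  obtain ⟨hinj, hmem⟩ := (asg_ex l K).choose_spec hKc
  change Function.Injective f at hinj
  change ∀ ρ, f ρ ∈ K at hmem
  set Bad : Finset (Blk l) :=
    univ.filter fun j => 1 / 2 ^ 42 < ‖L • ω (none, ⟨l, emb e l j⟩)‖ with hBad
  have hBadc : Bad.card ≤ 4096 * (3 * FF l) := by
    rw [Finset.card_eq_sum_card_fiberwise (f := Prod.fst) (t := univ) (fun _ _ => by simp)]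
    calc ∑ d : Fin RR, (Bad.filter fun j => j.1 = d).card ≤ ∑ _d : Fin RR, 3 * FF l := by
          refine Finset.sum_le_sum fun d _ => le_trans ?_ (hin ((out e).succAbove d))
          refine Finset.card_le_card_of_injOn Prod.snd ?_ ?_
          · intro j hj
            simp only [hBad, coe_filter, mem_filter, mem_univ, true_and, Set.mem_ofPred_eq] at hj ⊢
            obtain ⟨hj, rfl⟩ := hj
            exact hj
          · intro a ha b hb hab
            simp only [coe_filter, Set.mem_ofPred_eq] at ha hb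
            exact Prod.ext (ha.2.trans hb.2.symm) hab
      _ = _ := by simp [RR_eq]
  have hg1 : ∀ ρ, L • gg e ω (none, ⟨l, emb e l (f ρ)⟩) = val (NN (l + 1)) u ρ := by
    intro ρ
    simp only [gg]
    rw [Finset.sum_eq_single ρ]
    · rw [if_pos rfl, val_nsmul]
    · intro ρ' _ hρ
      exact if_neg fun h => hρ (hinj (emb_inj e l h))
    · simp
  have hg2 : ∀ j, (∀ ρ, f ρ ≠ j) → gg e ω (none, ⟨l, emb e l j⟩) = 0 := by
    intro j hj
    simp only [gg]
    exact Finset.sum_eq_zero fun ρ _ => if_neg fun h => hj ρ (emb_inj e l h)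
  have hsub : hits (xco e l) II ((Tm e)^[L] ω) ⊆ Bad ∪ (hits (xco e l) IP ω \ Exc.image f) := by
    intro j hj
    rw [mem_hits, xco, Tm_iter, smul_add] at hj
    by_cases hb : j ∈ Bad
    · exact mem_union_left _ hb
    refine mem_union_right _ ?_
    have hb' : ‖L • ω (none, ⟨l, emb e l j⟩)‖ ≤ 1 / 2 ^ 42 := by simpa [hBad] using hb
    simp only [II, mem_closedBall_zero_iff] at hj
    rw [mem_sdiff, mem_hits, xco]
    simp only [IP, mem_closedBall_zero_iff, mem_image, not_exists, not_and]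
    by_cases hr : ∃ ρ, f ρ = j
    · obtain ⟨ρ, rfl⟩ := hr
      have hx := hmem ρ
      rw [hK, mem_hits, xco] at hx
      simp only [II, mem_closedBall_zero_iff] at hx
      refine ⟨by linarith [show (0 : ℝ) < 1 / 2 ^ 42 by positivity], fun ρ' hρ' hρ => ?_⟩
      obtain rfl := hinj hρ
      rw [hg1] at hj
      have h4 : 1 / 4 < ‖val (NN (l + 1)) u ρ'‖ := hExc _ hρ'
      set x := ω (some e, ⟨l, emb e l (f ρ')⟩)
      set y := L • ω (none, ⟨l, emb e l (f ρ')⟩)
      set z := val (NN (l + 1)) u ρ'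
      have h5 : ‖z‖ ≤ ‖x + (y + z)‖ + ‖x‖ + ‖y‖ := by
        have : z = x + (y + z) - x - y := by abel
        calc ‖z‖ = ‖x + (y + z) - x - y‖ := by rw [← this]
          _ ≤ ‖x + (y + z) - x‖ + ‖y‖ := norm_sub_le _ _
          _ ≤ _ := by gcongr; exact norm_sub_le _ _
      have h6 : (1 : ℝ) / 16 + 1 / 16 + 1 / 2 ^ 42 ≤ 1 / 4 := by norm_num
      linarith
    · push Not at hr
      rw [hg2 j hr, smul_zero, add_zero] at hj
      refine ⟨?_, fun ρ _ => hr ρ⟩
      set x := ω (some e, ⟨l, emb e l j⟩)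
      set y := L • ω (none, ⟨l, emb e l j⟩)
      have h5 : ‖x‖ ≤ ‖x + y‖ + ‖y‖ := by
        have := norm_sub_le (x + y) y
        rwa [add_sub_cancel_right] at this
      linarith
  have hsub2 : Exc.image f ⊆ hits (xco e l) IP ω := by
    intro j hj
    obtain ⟨ρ, _, rfl⟩ := mem_image.1 hj
    have hx := hmem ρ
    rw [hK, mem_hits] at hx
    rw [mem_hits]
    exact II_sub hx
  have hc := (Finset.card_le_card hsub).trans (Finset.card_union_le _ _)
  have hc2 := Finset.card_sdiff_add_card_eq_card hsub2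
  rw [Finset.card_image_of_injective _ hinj] at hc2
  have hc3 : ((hits (xco e l) II ((Tm e)^[L] ω)).card : ℝ) + Exc.card ≤
      4096 * (3 * FF l) + (hits (xco e l) IP ω).card := by
    exact_mod_cast (by omega : (hits (xco e l) II ((Tm e)^[L] ω)).card + Exc.card ≤
      4096 * (3 * FF l) + (hits (xco e l) IP ω).card)
  have h1 := (h' e l).1
  have h2 := (h e l).2
  have h3 : (rr l : ℝ) = 2 ^ 43 * FF l := by rw [rr_eq]; push_cast; ring
  have h4 : (0 : ℝ) ≤ FF l := Nat.cast_nonneg _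
  have h5 : (Exc.card : ℝ) ≤ 2 ^ 15 * (2 * FF l) := by
    rw [h3] at h1 h2
    linarith
  rw [FF_succ]
  exact_mod_cast h5

end Pool.Agent.H193Z.Cube
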